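import Pool.Agent.H8.AV3.Stmts

/-!
# Board `av3`, module TRS: change of the base point
-/

set_option autoImplicit false

namespace Pool.Agent.H49.AV3

open Polynomial Matrix Pool.AVR Pool.AV3 WeierstrassCurve.Affine

variable {K : Type} [Field K] [DecidableEq K]

omit [DecidableEq K] in
theorem onC_of {a b c x y : K} (h : (E a b c).toAffine.Nonsingular x y) : OnC a b c x y := by
  have := (WeierstrassCurve.Affine.equation_iff x y).1 h.1
  simp only [E] at this
  unfold OnC
  linear_combination this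

omit [DecidableEq K] in
theorem negY_E (a b c x y : K) : (E a b c).toAffine.negY x y = -y := by
  simp [WeierstrassCurve.Affine.negY, E]

/-- The relations between the coordinates of three collinear points. -/
theorem line_rel (a b c : K) {x₁ y₁ x₂ y₂ : K} (h₁ : (E a b c).toAffine.Nonsingular x₁ y₁)
    (h₂ : (E a b c).toAffine.Nonsingular x₂ y₂) (hxy : ¬(x₁ = x₂ ∧ y₁ = -y₂)) (m : K)
    (hm : m = (E a b c).toAffine.slope x₁ x₂ y₁ y₂) :
    ∃ (x₃ y₃ : K) (h₃ : (E a b c).toAffine.Nonsingular x₃ y₃),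
      (Point.some x₁ y₁ h₁ : Pt a b c) + Point.some x₂ y₂ h₂ = Point.some x₃ y₃ h₃ ∧
      y₂ = y₁ + m * (x₂ - x₁) ∧ -y₃ = y₁ + m * (x₃ - x₁) ∧ x₁ + x₂ + x₃ = m ^ 2 - a ∧
      x₁ * x₂ + x₁ * x₃ + x₂ * x₃ = b - 2 * m * (y₁ - m * x₁) ∧
      x₁ * x₂ * x₃ = (y₁ - m * x₁) ^ 2 - c := by
  have hxy' : ¬(x₁ = x₂ ∧ y₁ = (E a b c).toAffine.negY x₂ y₂) := by
    rw [negY_E]
    exact hxy
  have hp := WeierstrassCurve.Affine.addPolynomial_slope h₁.1 h₂.1 hxy'
  rw [← hm, WeierstrassCurve.Affine.addPolynomial_eq, neg_inj, Cubic.prod_X_sub_C_eq,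
    Cubic.toPoly_injective] at hp
  have hb := congrArg Cubic.b hp
  have hc := congrArg Cubic.c hp
  have hd := congrArg Cubic.d hp
  have hX : (E a b c).toAffine.addX x₁ x₂ m = m ^ 2 - a - x₁ - x₂ := by
    simp [WeierstrassCurve.Affine.addX, E]
  rw [hX] at hb hc hd
  simp only [E] at hb hc hd
  refine ⟨_, _, WeierstrassCurve.Affine.nonsingular_add h₁ h₂ hxy', Point.add_some hxy', ?_⟩
  rw [← hm, hX]
  have hY : (E a b c).toAffine.addY x₁ x₂ y₁ m = -(y₁ + m * (m ^ 2 - a - x₁ - x₂ - x₁)) := by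
    rw [WeierstrassCurve.Affine.addY, WeierstrassCurve.Affine.negAddY, hX, negY_E]
    ring
  rw [hY]
  refine ⟨?_, by ring, by ring, by linear_combination -hc, by linear_combination hd⟩
  by_cases hx : x₁ = x₂
  · have hy : y₁ ≠ (E a b c).toAffine.negY x₂ y₂ := fun h => hxy' ⟨hx, h⟩
    have := WeierstrassCurve.Affine.Y_eq_of_Y_ne h₁.1 h₂.1 hx hy
    rw [← this, hx]
    ring
  · rw [WeierstrassCurve.Affine.slope_of_X_ne hx] at hm
    have hx' : x₁ - x₂ ≠ 0 := sub_ne_zero.2 hx
    rw [hm]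
    field_simp
    ring

theorem tangent_rel (a b c : K) {x₁ y₁ : K} (h2 : (2 : K) ≠ 0) (hy : y₁ ≠ 0) (m : K)
    (hm : m = (E a b c).toAffine.slope x₁ x₁ y₁ y₁) :
    2 * y₁ * m = 3 * x₁ ^ 2 + 2 * a * x₁ + b := by
  have h2y : 2 * y₁ ≠ 0 := mul_ne_zero h2 hy
  have hy' : y₁ ≠ (E a b c).toAffine.negY x₁ y₁ := by
    rw [negY_E]
    intro h
    exact h2y (by linear_combination h)
  rw [WeierstrassCurve.Affine.slope_of_Y_ne rfl hy', negY_E] at hm
  have e : y₁ - -y₁ = 2 * y₁ := by ring
  rw [e] at hm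
  rw [hm, mul_div_cancel₀ _ h2y]
  simp [E]

omit [DecidableEq K] in
theorem pt_ext {a b c x y x' y' : K} {h : (E a b c).toAffine.Nonsingular x y}
    {h' : (E a b c).toAffine.Nonsingular x' y'} (hx : x = x') (hy : y = y') :
    (Point.some x y h : Pt a b c) = Point.some x' y' h' := by
  subst hx hy
  rfl

theorem neg_pt {a b c x y : K} (h : (E a b c).toAffine.Nonsingular x y)
    (h' : (E a b c).toAffine.Nonsingular x (-y)) :
    -(Point.some x y h : Pt a b c) = Point.some x (-y) h' := by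
  rw [Point.neg_some]
  exact pt_ext rfl (negY_E a b c x y)

theorem neg_ns {a b c x y : K} (h : (E a b c).toAffine.Nonsingular x y) :
    (E a b c).toAffine.Nonsingular x (-y) := by
  have := (WeierstrassCurve.Affine.nonsingular_neg x y).2 h
  rw [negY_E] at this
  exact this

omit [DecidableEq K] in
theorem sep_ns {a b c x : K} (h : (E a b c).toAffine.Nonsingular x 0) :
    3 * x ^ 2 + 2 * a * x + b ≠ 0 := by
  have := (WeierstrassCurve.Affine.nonsingular_iff' x 0).1 h
  simp only [E] at this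
  rcases this.2 with h3 | h3
  · intro h4
    apply h3
    linear_combination -h4
  · exact absurd (by ring) h3

omit [DecidableEq K] in
theorem col1 (g : Matrix (Fin 3) (Fin 3) K) : g *ᵥ (e1 : Fin 3 → K) = fun i => g i 1 := by
  funext i
  rw [mulVec3]
  simp [e1]

theorem trs_thm (hTRA : TRAStmt) (hTRB : TRBStmt) (hTRC : TRCStmt) : TRSStmt := by
  intro K _ _ h2 a b c hsep x₀ y₀ h₀ T hne
  have hQ := onC_of h₀
  rcases T with _ | ⟨x₁, y₁, h₁⟩
  · -- `T = 0`
    refine ⟨x₀, y₀, h₀, 1, ?_, Eqv.refl _, 1, one_ne_zero, ?_⟩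
    · have : (Point.zero : Pt a b c) = 0 := rfl
      rw [this]
      simp
    · rw [Matrix.one_mulVec, one_smul]
      rfl
  have hT := onC_of h₁
  by_cases hTQ : x₁ = x₀ ∧ y₁ = y₀
  · -- `T = Q`
    obtain ⟨rfl, rfl⟩ := hTQ
    have hy : y₁ ≠ 0 := by
      intro hy
      apply hne
      have : (Point.some x₁ y₁ h₁ : Pt a b c) + Point.some x₁ y₁ h₁ = 0 := by
        apply Point.add_self_of_Y_eq
        rw [negY_E, hy, neg_zero]
      rw [this, zero_add]
    have h2y : 2 * y₁ ≠ 0 := mul_ne_zero h2 hy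
    have hxy : ¬(x₁ = x₁ ∧ y₁ = -y₁) := by
      rintro ⟨-, h⟩
      exact h2y (by linear_combination h)
    obtain ⟨x₃, y₃, h₃, hadd, -, hy3, hx3, -, -⟩ := line_rel a b c h₁ h₁ hxy _ rfl
    set t := (E a b c).toAffine.slope x₁ x₁ y₁ y₁ with ht
    have htan := tangent_rel a b c h2 hy t ht
    refine ⟨x₃, -y₃, neg_ns h₃, _, ?_, hTRC K h2 a b c x₁ y₁ t x₃ (-y₃) hy hQ htan
      (by linear_combination hx3) (by linear_combination hy3), -1, by simp, ?_⟩
    · rw [← neg_pt h₃ (neg_ns h₃), ← hadd]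
      abel
    · rw [col1]
      have : (phi x₁ y₁ (Point.some x₁ y₁ h₁ : Pt a b c)) = ![1, 0, 0] := if_pos ⟨rfl, rfl⟩
      rw [this]
      funext i
      fin_cases i <;> simp
  -- `T ≠ Q`
  have hphi : phi x₀ y₀ (Point.some x₁ y₁ h₁ : Pt a b c) =
      ![(E a b c).toAffine.slope x₁ x₀ y₁ (-y₀), x₁, 1] := if_neg hTQ
  have hxy : ¬(x₁ = x₀ ∧ y₁ = -(-y₀)) := by
    rw [neg_neg]
    exact hTQ
  obtain ⟨xW, y₃, h₃, hadd, hl1, hl2, hs1, hs2, hs3⟩ := line_rel a b c h₁ (neg_ns h₀) hxy _ rfl
  set m₁ := (E a b c).toAffine.slope x₁ x₀ y₁ (-y₀) with hm₁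
  -- the point `W = Q - T`
  have hW := neg_ns h₃
  have hWQ : (Point.some xW (-y₃) hW : Pt a b c) = Point.some x₀ y₀ h₀ - Point.some x₁ y₁ h₁ := by
    rw [← neg_pt h₃ hW, ← hadd, ← neg_pt h₀ (neg_ns h₀)]
    abel
  by_cases hy : y₁ = 0
  · -- `T` of order two
    subst hy
    have hTT : (Point.some x₁ 0 h₁ : Pt a b c) + Point.some x₁ 0 h₁ = 0 := by
      apply Point.add_self_of_Y_eq
      rw [negY_E, neg_zero]
    refine ⟨xW, -y₃, hW, _, ?_, hTRB K h2 a b c x₁ m₁ xW (-y₃) x₀ y₀ hT
      (by linear_combination hl2) (by linear_combination hl1) (by linear_combination hs1)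
      (by linear_combination hs2) (by linear_combination hs3) ?_ (sep_ns h₁), 1, one_ne_zero, ?_⟩
    · rw [hWQ, hTT, zero_add]
    · intro hx
      have hy3 : y₃ = 0 := by
        rw [hx] at hl2
        linear_combination -hl2
      have : (Point.some xW (-y₃) hW : Pt a b c) = Point.some x₁ 0 h₁ :=
        pt_ext hx (by rw [hy3, neg_zero])
      rw [this] at hWQ
      have h5 : (Point.some x₀ y₀ h₀ : Pt a b c) = 0 := by
        rw [← hTT]
        nth_rewrite 1 [hWQ]
        abel
      exact Point.some_ne_zero h₀ h5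
    · rw [col1, one_smul, hphi]
      funext i
      fin_cases i <;> simp
  · -- the general case
    have h2y : 2 * y₁ ≠ 0 := mul_ne_zero h2 hy
    have hxy1 : ¬(x₁ = x₁ ∧ y₁ = -y₁) := by
      rintro ⟨-, h⟩
      exact h2y (by linear_combination h)
    obtain ⟨xt, y4, h4, hadd2, -, hyt, ht1, ht2, ht3⟩ := line_rel a b c h₁ h₁ hxy1 _ rfl
    set t := (E a b c).toAffine.slope x₁ x₁ y₁ y₁ with ht
    have htan := tangent_rel a b c h2 hy t ht
    have hN := neg_ns h4
    have hN2 : (Point.some xt (-y4) hN : Pt a b c) =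
        -(Point.some x₁ y₁ h₁ + Point.some x₁ y₁ h₁) := by
      rw [← neg_pt h4 hN, ← hadd2]
    have hWN : ¬(xW = xt ∧ -y₃ = -(-y4)) := by
      rintro ⟨hx, hy'⟩
      have e : (Point.some xW (-y₃) hW : Pt a b c) = Point.some xt y4 h4 :=
        pt_ext hx (by rw [hy', neg_neg])
      rw [hWQ, ← hadd2] at e
      apply hne
      rw [← e]
      abel
    obtain ⟨xp, yp, hp, hadd3, hp1, hp2, hp3, hp4, hp5⟩ := line_rel a b c hW hN hWN _ rfl
    set ms := (E a b c).toAffine.slope xW xt (-y₃) (-y4) with hms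
    refine ⟨xp, yp, hp, _, ?_, hTRA K h2 a b c x₁ y₁ t xt (-y4) m₁ xW (-y₃) x₀ y₀ ms xp yp hy hT
      htan (by linear_combination ht1) (by linear_combination hyt) (by linear_combination hl2)
      (by linear_combination hl1) (by linear_combination hs1) (by linear_combination hs2)
      (by linear_combination hs3) (by linear_combination hp1) (by linear_combination hp2)
      (by linear_combination hp3) (by linear_combination hp4) (by linear_combination hp5) ?_,
      1, one_ne_zero, ?_⟩
    · rw [← hadd3, hWQ, hN2]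
      abel
    · intro hz
      have hWC := onC_of h₃
      unfold OnC at hWC
      have key : (xW - x₁) * ((xW - x₁) * (xW - xt)) = 0 := by
        linear_combination (-(xW ^ 2)) * ht1 + xW * ht2 - ht3 - hWC -
          (y₃ + (y₁ + t * (xW - x₁))) * hz
      rcases mul_eq_zero.1 key with h6 | h6
      · have hx : xW = x₁ := by linear_combination h6
        have hy' : -y₃ = -y₁ := by
          rw [hx] at hz
          linear_combination hz
        have e : (Point.some xW (-y₃) hW : Pt a b c) = -Point.some x₁ y₁ h₁ := by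
          rw [neg_pt h₁ (neg_ns h₁)]
          exact pt_ext hx hy'
        rw [hWQ] at e
        have h5 : (Point.some x₀ y₀ h₀ : Pt a b c) = 0 := by
          have := congrArg (fun P => P + Point.some x₁ y₁ h₁) e
          simpa using this
        exact Point.some_ne_zero h₀ h5
      · rcases mul_eq_zero.1 h6 with h7 | h7
        · have hx : xW = x₁ := by linear_combination h7
          have hy' : -y₃ = -y₁ := by
            rw [hx] at hz
            linear_combination hz
          have e : (Point.some xW (-y₃) hW : Pt a b c) = -Point.some x₁ y₁ h₁ := by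
            rw [neg_pt h₁ (neg_ns h₁)]
            exact pt_ext hx hy'
          rw [hWQ] at e
          have h5 : (Point.some x₀ y₀ h₀ : Pt a b c) = 0 := by
            have := congrArg (fun P => P + Point.some x₁ y₁ h₁) e
            simpa using this
          exact Point.some_ne_zero h₀ h5
        · apply hWN
          have hx : xW = xt := by linear_combination h7
          refine ⟨hx, ?_⟩
          rw [hx] at hz
          linear_combination hz + hyt
    · rw [col1, one_smul, hphi]
      funext i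
      fin_cases i <;> simp [hA]

end Pool.Agent.H49.AV3
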